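import Pool.Agent.Y472.E.Defs
import Pool.Agent.Y288.CB.KB3

/-!
CB3-E-KBY: bound of the kernel at the height `y₀`.
-/

set_option autoImplicit false

namespace Pool.Agent.Y68.CB

open Filter Finset Topology MeasureTheory
open Pool.Agent.W711.HT Pool.Agent.Y472 GapVol EvenVol EvenVol.LobIneq
open Pool.Agent.Y288.CB (ev_le ev_N mid norm_cos_le_exp)
open Pool.Agent.W688.HT (b0 Sd_pos)
open scoped Real

/-- the integrand of `rhc` is integrable -/
lemma rhc_ii (χ : ℂ) (a b : ℝ) : IntervalIntegrable (fun s : ℝ =>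
    Real.log (‖Complex.cos χ - (Real.cos (2 * π * s) : ℂ)‖ / (1 - Real.cos (2 * π * s))))
    volume a b := by
  have hA : AnalyticOnNhd ℝ (fun s : ℝ => Complex.cos χ - (Real.cos (2 * π * s) : ℂ))
      (Set.uIcc a b) := by
    intro s _
    have h1 : AnalyticAt ℝ (fun s : ℝ => Real.cos (2 * π * s)) s := by
      exact Real.analyticAt_cos.fun_comp (by fun_prop)
    exact analyticAt_const.sub ((Complex.ofRealCLM.analyticAt _).comp h1)
  have hB : AnalyticOnNhd ℝ (fun s : ℝ => ((1 - Real.cos (2 * π * s) : ℝ) : ℂ))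
      (Set.uIcc a b) := by
    intro s _
    have h1 : AnalyticAt ℝ (fun s : ℝ => 1 - Real.cos (2 * π * s)) s := by
      exact analyticAt_const.sub (Real.analyticAt_cos.fun_comp (by fun_prop))
    exact (Complex.ofRealCLM.analyticAt _).comp h1
  have h := (hA.meromorphicOn.div hB.meromorphicOn).intervalIntegrable_log_norm
  refine h.congr (fun s _ => ?_)
  show Real.log ‖_‖ = _
  rw [Pi.div_apply, norm_div, Complex.norm_real, Real.norm_of_nonneg (by
    have := Real.cos_le_one (2 * π * s)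
    linarith)]

lemma rhc_sub (χ : ℂ) (a b : ℝ) : rhc b χ - rhc a χ = ∫ s in a..b,
    Real.log (‖Complex.cos χ - (Real.cos (2 * π * s) : ℂ)‖ / (1 - Real.cos (2 * π * s))) := by
  unfold rhc
  rw [intervalIntegral.integral_interval_sub_left (rhc_ii χ _ _) (rhc_ii χ _ _)]

/-- bounds of the numerator -/
lemma num_bd (u y θ : ℝ) : Real.cosh y - 1 ≤
    ‖Complex.cos (u + y * Complex.I) - (Real.cos θ : ℂ)‖ ∧
    ‖Complex.cos (u + y * Complex.I) - (Real.cos θ : ℂ)‖ ≤ Real.cosh y + 1 := by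
  have h0 : Complex.cos (u + y * Complex.I) =
      ((Real.cos u * Real.cosh y : ℝ) : ℂ) - ((Real.sin u * Real.sinh y : ℝ) : ℂ) * Complex.I := by
    rw [Complex.cos_add, Complex.cos_mul_I, Complex.sin_mul_I]
    push_cast
    ring
  have h1 := Real.cosh_sq y
  have hc := Real.one_le_cosh y
  have hs := Real.sin_sq_add_cos_sq u
  have hnsq : ‖Complex.cos (u + y * Complex.I) - (Real.cos θ : ℂ)‖ ^ 2 =
      (Real.cosh y - Real.cos u * Real.cos θ) ^ 2 - (Real.sin u * Real.sin θ) ^ 2 := by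
    rw [h0, ← Complex.normSq_eq_norm_sq, Complex.normSq_apply]
    simp only [Complex.sub_re, Complex.ofReal_re, Complex.mul_re, Complex.I_re, mul_zero,
      Complex.ofReal_im, Complex.I_im, mul_one, sub_self, sub_zero, Complex.sub_im,
      Complex.mul_im, add_zero, zero_sub]
    have h2 := Real.sin_sq_add_cos_sq θ
    have e1 : Real.sin θ ^ 2 = 1 - Real.cos θ ^ 2 := by linarith
    have e2 : Real.sin u ^ 2 = 1 - Real.cos u ^ 2 := by linarith
    have e3 : Real.sinh y ^ 2 = Real.cosh y ^ 2 - 1 := by linarith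
    have : (Real.sin u * Real.sin θ) ^ 2 = (1 - Real.cos u ^ 2) * (1 - Real.cos θ ^ 2) := by
      rw [mul_pow, e1, e2]
    rw [this]
    have e4 : -(Real.sin u * Real.sinh y) * -(Real.sin u * Real.sinh y) =
        (1 - Real.cos u ^ 2) * (Real.cosh y ^ 2 - 1) := by
      rw [← e2, ← e3]; ring
    rw [e4]
    ring
  have k1 : Real.cosh y - 1 ≤ Real.cosh y - Real.cos (u + θ) := by
    linarith [Real.cos_le_one (u + θ)]
  have k2 : Real.cosh y - 1 ≤ Real.cosh y - Real.cos (u - θ) := by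
    linarith [Real.cos_le_one (u - θ)]
  have k3 : Real.cosh y - Real.cos (u + θ) ≤ Real.cosh y + 1 := by
    linarith [Real.neg_one_le_cos (u + θ)]
  have k4 : Real.cosh y - Real.cos (u - θ) ≤ Real.cosh y + 1 := by
    linarith [Real.neg_one_le_cos (u - θ)]
  have hprod : (Real.cosh y - Real.cos u * Real.cos θ) ^ 2 - (Real.sin u * Real.sin θ) ^ 2 =
      (Real.cosh y - Real.cos (u + θ)) * (Real.cosh y - Real.cos (u - θ)) := by
    rw [Real.cos_add, Real.cos_sub]; ring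
  rw [hprod] at hnsq
  constructor
  · refine le_of_sq_le_sq ?_ (norm_nonneg _)
    rw [hnsq, sq]
    exact mul_le_mul k1 k2 (by linarith) (by linarith)
  · refine le_of_sq_le_sq ?_ (by linarith)
    rw [hnsq, sq]
    exact mul_le_mul k3 k4 (by linarith) (by linarith)

/-- continuity of `rhc` at `1 / 2` -/
lemma rhc_half {y : ℝ} (hy : 0 < y) : ∃ C : ℝ, 0 < C ∧ ∀ δ u : ℝ, 1 / 4 ≤ δ → δ ≤ 1 / 2 →
    |rhc (1 / 2) (u + y * Complex.I) - rhc δ (u + y * Complex.I)| ≤ C * (1 / 2 - δ) := by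
  have hc : 1 < Real.cosh y := Real.one_lt_cosh.2 hy.ne'
  set C : ℝ := |Real.log ((Real.cosh y - 1) / 2)| + |Real.log (Real.cosh y + 1)| + 1 with hC
  refine ⟨C, by positivity, fun δ u h1 h2 => ?_⟩
  rw [rhc_sub]
  have h3 : ∀ s ∈ Set.uIoc δ (1 / 2), ‖Real.log (‖Complex.cos (u + y * Complex.I) -
      (Real.cos (2 * π * s) : ℂ)‖ / (1 - Real.cos (2 * π * s)))‖ ≤ C := by
    intro s hs
    rw [Set.uIoc_of_le h2] at hs
    obtain ⟨n1, n2⟩ := num_bd u y (2 * π * s)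
    have d1 : 1 ≤ 1 - Real.cos (2 * π * s) := by
      have : Real.cos (2 * π * s) ≤ 0 := by
        apply Real.cos_nonpos_of_pi_div_two_le_of_le
        · nlinarith [Real.pi_pos, hs.1]
        · nlinarith [Real.pi_pos, hs.2]
      linarith
    have d2 : 1 - Real.cos (2 * π * s) ≤ 2 := by linarith [Real.neg_one_le_cos (2 * π * s)]
    set n : ℝ := ‖Complex.cos (u + y * Complex.I) - (Real.cos (2 * π * s) : ℂ)‖ with hn
    set d : ℝ := 1 - Real.cos (2 * π * s) with hd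
    have q1 : (Real.cosh y - 1) / 2 ≤ n / d := by
      rw [div_le_div_iff₀ (by norm_num) (by linarith)]
      nlinarith
    have q2 : n / d ≤ Real.cosh y + 1 := by
      rw [div_le_iff₀ (by linarith)]
      nlinarith
    have l1 := Real.log_le_log (by linarith) q1
    have l2 := Real.log_le_log (by linarith [q1]) q2
    rw [Real.norm_eq_abs, abs_le]
    have a1 := neg_abs_le (Real.log ((Real.cosh y - 1) / 2))
    have a2 := le_abs_self (Real.log (Real.cosh y + 1))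
    have a3 := abs_nonneg (Real.log ((Real.cosh y - 1) / 2))
    have a4 := abs_nonneg (Real.log (Real.cosh y + 1))
    constructor <;> linarith
  have h4 := intervalIntegral.norm_integral_le_of_norm_le_const h3
  rw [Real.norm_eq_abs, abs_of_nonneg (by linarith : (0 : ℝ) ≤ 1 / 2 - δ)] at h4
  exact h4

/-- the middle index -/
lemma midc {y ε : ℝ} (hy : 0 < y) (hε : 0 < ε)
    (hs : ∀ δ x : ℝ, 0 ≤ δ → δ ≤ 1 → |x| ≤ π →
      rhc (1 - δ) (x + y * Complex.I) = y - rhc δ (x + y * Complex.I)) :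
    ∀ᶠ N : ℕ in atTop, ∀ x : ℝ, |x| ≤ π →
      rhc ((((N - 1) / 2 : ℕ) : ℝ) / N) (x + y * Complex.I) ≤ y / 2 + ε := by
  obtain ⟨C, hC, H⟩ := rhc_half hy
  have h1 : ∀ᶠ N : ℕ in atTop, C / (N : ℝ) < ε :=
    (tendsto_const_div_atTop_nhds_zero_nat C).eventually (gt_mem_nhds hε)
  filter_upwards [h1, eventually_ge_atTop 4] with N hN hN4
  intro x hx
  have hNR : (0 : ℝ) < N := by
    have : 0 < N := by omega
    exact_mod_cast this
  set n0 : ℕ := (N - 1) / 2 with hn0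
  have hn1 : N ≤ 2 * n0 + 2 := by omega
  have hn2 : 2 * n0 ≤ N := by omega
  have hn1' : (N : ℝ) ≤ 2 * n0 + 2 := by exact_mod_cast hn1
  have hn2' : 2 * (n0 : ℝ) ≤ N := by exact_mod_cast hn2
  have hN4' : (4 : ℝ) ≤ N := by exact_mod_cast hN4
  have d1 : 1 / 4 ≤ (n0 : ℝ) / N := by
    rw [div_le_div_iff₀ (by norm_num) hNR]; linarith
  have d2 : (n0 : ℝ) / N ≤ 1 / 2 := by
    rw [div_le_div_iff₀ hNR (by norm_num)]; linarith
  have h2 := H (n0 / N) x d1 d2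
  have h3 := hs (1 / 2) x (by norm_num) (by norm_num) hx
  have h4 : rhc (1 / 2) (x + y * Complex.I) = y / 2 := by
    have e : (1 : ℝ) - 1 / 2 = 1 / 2 := by norm_num
    rw [e] at h3
    linarith
  have h5 : 1 / 2 - (n0 : ℝ) / N ≤ 1 / N := by
    rw [sub_le_iff_le_add, ← add_div, div_le_div_iff₀ (by norm_num) hNR]
    linarith
  have h6 : C * (1 / 2 - (n0 : ℝ) / N) ≤ C * (1 / N) := mul_le_mul_of_nonneg_left h5 hC.le
  have h7 : C * (1 / N) = C / N := by ring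
  have h8 := (abs_le.1 h2).1
  rw [h4] at h8
  linarith

/-- the bound of a term of the kernel -/
lemma term (h1 : S_TBY) {y₀ : ℝ} (hy : 0 < y₀) (hy2 : y₀ ≤ 9 / 5)
    (hs : ∀ δ x : ℝ, 0 ≤ δ → δ ≤ 1 → |x| ≤ π →
      rhc (1 - δ) (x + y₀ * Complex.I) = y₀ - rhc δ (x + y₀ * Complex.I))
    (ε : ℝ) (hε : 0 < ε) : ∃ τ : ℝ, 0 < τ ∧ ∀ᶠ N : ℕ in atTop,
    ∀ d ≤ (N - 1) / 2, ∀ ψ ψ' χ : ℂ, |ψ.re| ≤ π → |ψ.im| ≤ τ → |ψ'.re| ≤ π →
      |ψ'.im| ≤ τ → |χ.re| ≤ π → |χ.im - y₀| ≤ τ →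
      ‖Rp N d ψ * Rp N d ψ' * Tg N d χ / (Sd N d : ℂ) ^ 2‖ ≤
        Real.exp (N * (bb ((d : ℝ) / N) ψ.re + bb ((d : ℝ) / N) ψ'.re + y₀ / 2 -
          rhc ((d : ℝ) / N) (χ.re + y₀ * Complex.I) + ε)) := by
  have hπ := Real.pi_pos
  obtain ⟨τ1, hτ1, H1⟩ := b0 (ε / 6) (by positivity)
  obtain ⟨τ2, hτ2, H2⟩ := h1 y₀ hy hy2 (ε / 6) (by positivity)
  refine ⟨min (min τ1 τ2) 1, by positivity, ?_⟩
  set K : ℝ := 2 * Real.exp (π + 3) + 1 with hK
  filter_upwards [H1, H2, mid (ε := ε / 6) (by positivity),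
    midc (ε := ε / 6) hy (by positivity) hs, ev_le (K := K) (ε := ε / 6)
    (by positivity), eventually_gt_atTop 0] with N H1 H2 hmid hmidc hKN hN0
  intro d hd ψ ψ' χ hψ1 hψ2 hψ'1 hψ'2 hχ1 hχ2
  have hNR : (0 : ℝ) < N := by exact_mod_cast hN0
  set n0 : ℕ := (N - 1) / 2 with hn0
  have hn3 : n0 < N := by omega
  have hdN : d < N := by omega
  have hSd := Sd_pos hdN
  have hSn := Sd_pos hn3
  have hR1 := H1 d hdN ψ.re ψ.im hψ1 (hψ2.trans ((min_le_left _ _).trans (min_le_left _ _)))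
  have hR2 := H1 d hdN ψ'.re ψ'.im hψ'1 (hψ'2.trans ((min_le_left _ _).trans (min_le_left _ _)))
  rw [Complex.re_add_im] at hR1 hR2
  have hP := H2 d n0 hd hn3 χ.re χ.im hχ1 (hχ2.trans ((min_le_left _ _).trans (min_le_right _ _)))
  rw [Complex.re_add_im] at hP
  have hχim : |χ.im| ≤ 3 := by
    have h5 := hχ2.trans (min_le_right (min τ1 τ2) 1)
    have h6 := abs_le.1 h5
    rw [abs_le]
    constructor <;> linarith
  have hfac : ‖(if N % 2 = 0 then 2 * Complex.cos (χ / 2) else 1 : ℂ)‖ ≤ K := by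
    split_ifs
    · rw [norm_mul]
      have h3 := norm_cos_le_exp (χ / 2)
      have h4 : ‖χ / 2‖ ≤ π + 3 := by
        rw [norm_div]
        have := Complex.norm_le_abs_re_add_abs_im χ
        rw [show ‖(2 : ℂ)‖ = 2 by simp, div_le_iff₀ (by norm_num)]
        linarith
      have h5 := Real.exp_le_exp.2 h4
      rw [show ‖(2 : ℂ)‖ = 2 by simp]
      linarith
    · rw [norm_one, hK]
      linarith [Real.exp_pos (π + 3)]
  have hT : ‖Tg N d χ‖ ≤ Real.exp (N * (ε / 6)) * (Sd N n0 ^ 2 / Sd N d ^ 2 *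
      Real.exp (N * (rhc ((n0 : ℝ) / N) (χ.re + y₀ * Complex.I) -
        rhc ((d : ℝ) / N) (χ.re + y₀ * Complex.I) + ε / 6))) := by
    unfold Tg
    rw [norm_mul]
    exact mul_le_mul (hfac.trans hKN) hP (norm_nonneg _) (Real.exp_pos _).le
  have hmid2 := hmidc χ.re hχ1
  rw [norm_div, norm_mul, norm_mul]
  have hSn' : ‖((Sd N d : ℝ) : ℂ) ^ 2‖ = Sd N d ^ 2 := by
    rw [norm_pow, Complex.norm_real, Real.norm_of_nonneg hSd.le]
  rw [hSn', div_le_iff₀ (by positivity)]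
  calc ‖Rp N d ψ‖ * ‖Rp N d ψ'‖ * ‖Tg N d χ‖ ≤
      (Sd N d ^ 2 * Real.exp (N * (bb ((d : ℝ) / N) ψ.re + ε / 6))) *
      (Sd N d ^ 2 * Real.exp (N * (bb ((d : ℝ) / N) ψ'.re + ε / 6))) *
      (Real.exp (N * (ε / 6)) * (Sd N n0 ^ 2 / Sd N d ^ 2 *
      Real.exp (N * (rhc ((n0 : ℝ) / N) (χ.re + y₀ * Complex.I) -
        rhc ((d : ℝ) / N) (χ.re + y₀ * Complex.I) + ε / 6)))) := by
        gcongr
    _ = Sd N n0 ^ 2 * (Real.exp (N * (bb ((d : ℝ) / N) ψ.re + ε / 6)) *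
        Real.exp (N * (bb ((d : ℝ) / N) ψ'.re + ε / 6)) * Real.exp (N * (ε / 6)) *
        Real.exp (N * (rhc ((n0 : ℝ) / N) (χ.re + y₀ * Complex.I) -
        rhc ((d : ℝ) / N) (χ.re + y₀ * Complex.I) + ε / 6))) *
        Sd N d ^ 2 := by
        field_simp
    _ ≤ Real.exp (N * (ε / 6)) * (Real.exp (N * (bb ((d : ℝ) / N) ψ.re + ε / 6)) *
        Real.exp (N * (bb ((d : ℝ) / N) ψ'.re + ε / 6)) * Real.exp (N * (ε / 6)) *
        Real.exp (N * (rhc ((n0 : ℝ) / N) (χ.re + y₀ * Complex.I) -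
        rhc ((d : ℝ) / N) (χ.re + y₀ * Complex.I) + ε / 6))) *
        Sd N d ^ 2 := by
        have := hmid.1
        gcongr
    _ ≤ Real.exp (N * (bb ((d : ℝ) / N) ψ.re + bb ((d : ℝ) / N) ψ'.re + y₀ / 2 -
          rhc ((d : ℝ) / N) (χ.re + y₀ * Complex.I) + ε)) * Sd N d ^ 2 := by
        gcongr
        rw [← Real.exp_add, ← Real.exp_add, ← Real.exp_add, ← Real.exp_add, Real.exp_le_exp]
        have : N * (rhc ((n0 : ℝ) / N) (χ.re + y₀ * Complex.I)) ≤ N * (y₀ / 2 + ε / 6) := by gcongr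
        linarith

/-- KBY -/
theorem kby : S_KBY := by
  intro h1 h2 y₀ hy hy2
  have hπ := Real.pi_pos
  obtain ⟨-, ρs, c₂, hρ0, hρ1, hc₂, hs, -, -, -, R5, R6⟩ := h2 y₀ hy hy2
  have hdelta : ∀ N d : ℕ, 0 < N → d ≤ (N - 1) / 2 → (0 : ℝ) ≤ d / N ∧ (d : ℝ) / N ≤ 1 / 2 := by
    intro N d hN hd
    have hNR : (0 : ℝ) < N := by exact_mod_cast hN
    refine ⟨by positivity, ?_⟩
    rw [div_le_div_iff₀ hNR (by norm_num)]
    have : d * 2 ≤ 1 * N := by omega
    exact_mod_cast this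
  refine ⟨⟨ρs, c₂, hρ0, hρ1, hc₂, fun ε hε => ?_⟩, fun ρ hρ => ?_⟩
  · obtain ⟨τ, hτ, H⟩ := term h1 hy hy2 hs (ε / 2) (half_pos hε)
    refine ⟨τ, hτ, ?_⟩
    filter_upwards [H, ev_N (ε := ε / 2) (half_pos hε), eventually_gt_atTop 0] with N H hN hN0
    intro ψ ψ' χ a1 a2 a3 a4 a5 a6
    have hNR : (0 : ℝ) < N := by exact_mod_cast hN0
    set B : ℝ := E0 y₀ - c₂ * min |ψ.re| ρs ^ 2 -
        c₂ * min |ψ'.re| ρs ^ 2 - c₂ * min |χ.re| ρs ^ 2 with hB
    unfold kh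
    have hterm : ∀ d ∈ range ((N - 1) / 2 + 1),
        ‖Rp N d ψ * Rp N d ψ' * Tg N d χ / (Sd N d : ℂ) ^ 2‖ ≤ Real.exp (N * (B + ε / 2)) := by
      intro d hd
      have hd' : d ≤ (N - 1) / 2 := by rw [Finset.mem_range] at hd; omega
      refine (H d hd' ψ ψ' χ a1 a2 a3 a4 a5 a6).trans (Real.exp_le_exp.2 ?_)
      obtain ⟨b1, b2⟩ := hdelta N d hN0 hd'
      have := R5 (d / N) ψ.re ψ'.re χ.re b1 b2 a1 a3 a5
      apply mul_le_mul_of_nonneg_left _ hNR.le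
      linarith
    refine (norm_sum_le_of_le _ hterm).trans ?_
    rw [Finset.sum_const, Finset.card_range, nsmul_eq_mul]
    have h3 : (((N - 1) / 2 + 1 : ℕ) : ℝ) ≤ N := by
      have : (N - 1) / 2 + 1 ≤ N := by omega
      exact_mod_cast this
    calc (((N - 1) / 2 + 1 : ℕ) : ℝ) * Real.exp (N * (B + ε / 2)) ≤
        Real.exp (N * (ε / 2)) * Real.exp (N * (B + ε / 2)) := by
          gcongr
          exact h3.trans hN
      _ = Real.exp (N * (B + ε)) := by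
          rw [← Real.exp_add]; congr 1; ring
  · obtain ⟨κ, hκ, R⟩ := R6 ρ hρ
    obtain ⟨τ, hτ, H⟩ := term h1 hy hy2 hs (κ / 2) (half_pos hκ)
    refine ⟨κ / 2, half_pos hκ, τ, hτ, ?_⟩
    filter_upwards [H, eventually_gt_atTop 0] with N H hN0
    intro d hd hρd ψ ψ' χ a1 a2 a3 a4 a5 a6
    have hNR : (0 : ℝ) < N := by exact_mod_cast hN0
    refine (H d hd ψ ψ' χ a1 a2 a3 a4 a5 a6).trans (Real.exp_le_exp.2 ?_)
    obtain ⟨b1, b2⟩ := hdelta N d hN0 hd
    have := R (d / N) ψ.re ψ'.re χ.re b1 b2 a1 a3 a5 hρd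
    apply mul_le_mul_of_nonneg_left _ hNR.le
    linarith

end Pool.Agent.Y68.CB
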